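import Mathlib
import Pool.Agent.Y670.KC.Defs
import Pool.Agent.Helper750.UC.J_exists_map
import Pool.Agent.Helper750.UC.J_glue

set_option autoImplicit false

/-!
Project KC (helper670), job MOD: the countable models of the theory of a structure with finite
relations and without isolated points.
-/

namespace Pool.Agent.Y970.KC

open FirstOrder FirstOrder.Language Pool.Agent.Helper750.UC Pool.Agent.Y670.KC

/-- An injective map `v : ℕ → M` extends to a bijection `M ≃ ℕ` as soon as the complement of its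
range is equivalent to the complement in `ℕ`. -/
theorem exists_equiv {M R' : Type} (v : ℕ → M) (hv : Function.Injective v)
    (eR : ((Set.range v)ᶜ : Set M) ≃ R') (g : ℕ ⊕ R' ≃ ℕ) :
    ∃ e : M ≃ ℕ, ∀ n, e (v n) = g (Sum.inl n) := by
  classical
  refine ⟨(Equiv.Set.sumCompl (Set.range v)).symm.trans
    ((Equiv.sumCongr (Equiv.ofInjective v hv).symm eR).trans g), fun n => ?_⟩
  have h1 : (Equiv.Set.sumCompl (Set.range v)).symm (v n) = Sum.inl ⟨v n, n, rfl⟩ :=
    Equiv.Set.sumCompl_symm_apply_of_mem (s := Set.range v) ⟨n, rfl⟩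
  have h2 : (Equiv.ofInjective v hv).symm ⟨v n, n, rfl⟩ = n := by
    rw [Equiv.symm_apply_eq]
    rfl
  rw [Equiv.trans_apply, Equiv.trans_apply, h1, Equiv.sumCongr_apply, Sum.map_inl, h2]

/-- the bijection `n ↦ n + m`, `j ↦ j` -/
theorem exists_finEquiv (m : ℕ) : ∃ g : ℕ ⊕ Fin m ≃ ℕ, ∀ n, g (Sum.inl n) = n + m := by
  refine ⟨Equiv.ofBijective (Sum.elim (fun n => n + m) (fun j : Fin m => (j : ℕ))) ⟨?_, ?_⟩,
    fun n => rfl⟩
  · rintro (a | a) (b | b) h
    · simp only [Sum.elim_inl] at h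
      exact congrArg Sum.inl (by omega)
    · simp only [Sum.elim_inl, Sum.elim_inr] at h
      have := b.2
      omega
    · simp only [Sum.elim_inl, Sum.elim_inr] at h
      have := a.2
      omega
    · simp only [Sum.elim_inr] at h
      exact congrArg Sum.inr (Fin.ext h)
  · intro n
    rcases Nat.lt_or_ge n m with h | h
    · exact ⟨Sum.inr ⟨n, h⟩, rfl⟩
    · refine ⟨Sum.inl (n - m), ?_⟩
      simp only [Sum.elim_inl]
      omega

theorem exists_e {M : Type} [Countable M] (v : ℕ → M) (hv : Function.Injective v) :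
    ∃ e : M ≃ ℕ, (∃ m, ∀ n, e (v n) = n + m) ∨ ∀ n, e (v n) = 2 * n := by
  classical
  rcases finite_or_infinite ((Set.range v)ᶜ : Set M) with h | h
  · obtain ⟨m, ⟨eR⟩⟩ := Finite.exists_equiv_fin ((Set.range v)ᶜ : Set M)
    obtain ⟨g, hg⟩ := exists_finEquiv m
    obtain ⟨e, he⟩ := exists_equiv v hv eR g
    exact ⟨e, Or.inl ⟨m, fun n => by rw [he, hg]⟩⟩
  · obtain ⟨_⟩ := nonempty_denumerable ((Set.range v)ᶜ : Set M)
    obtain ⟨e, he⟩ := exists_equiv v hv (Denumerable.eqv ((Set.range v)ᶜ : Set M))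
      Equiv.natSumNatEquivNat
    exact ⟨e, Or.inr fun n => by rw [he]; simp⟩

/-- job MOD (corrected: `A` has no isolated points) -/
theorem t_MOD : ∀ A : Pool.Agent.Helper941.Dim.Str, FinRel A → NoIso A →
    ∀ M : FirstOrder.Language.Theory.ModelType.{0, 0, 0} (Pool.Agent.Helper750.UC.ThN A),
  Countable M → ∃ e : M ≃ ℕ,
    (∃ m, ∀ i x y, FirstOrder.Language.Structure.RelMap (L := Pool.Agent.Helper750.UC.BinL)
      (Pool.Agent.Helper750.UC.BinRel.r i) ![x, y] ↔ addFin m A i (e x) (e y)) ∨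
    ∀ i x y, FirstOrder.Language.Structure.RelMap (L := Pool.Agent.Helper750.UC.BinL)
      (Pool.Agent.Helper750.UC.BinRel.r i) ![x, y] ↔ addInf A i (e x) (e y) := by
  intro A hfin hno M hM
  obtain ⟨v, hv, hv2⟩ := J_glue.glue A hfin M
    (fun i x y => Structure.RelMap (L := BinL) (BinRel.r i) ![x, y])
    (fun n => J_exists_map.exists_map A hfin M M.is_model n)
  have hinj : Function.Injective v := fun a b hab => hv (hno a) (hno b) hab
  obtain ⟨e, he⟩ := exists_e v hinj
  refine ⟨e, ?_⟩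
  rcases he with ⟨m, he⟩ | he
  · left
    refine ⟨m, fun i x y => ?_⟩
    rw [hv2 i x y]
    constructor
    · rintro ⟨a, b, hab, rfl, rfl⟩
      refine ⟨by rw [he]; omega, by rw [he]; omega, ?_⟩
      rw [he, he, Nat.add_sub_cancel, Nat.add_sub_cancel]
      exact hab
    · rintro ⟨h1, h2, h3⟩
      refine ⟨_, _, h3, e.injective ?_, e.injective ?_⟩
      · rw [he]; omega
      · rw [he]; omega
  · right
    intro i x y
    rw [hv2 i x y]
    constructor
    · rintro ⟨a, b, hab, rfl, rfl⟩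
      refine ⟨by rw [he]; omega, by rw [he]; omega, ?_⟩
      rw [he, he, Nat.mul_div_cancel_left _ (by norm_num), Nat.mul_div_cancel_left _ (by norm_num)]
      exact hab
    · rintro ⟨h1, h2, h3⟩
      refine ⟨_, _, h3, e.injective ?_, e.injective ?_⟩
      · rw [he]; omega
      · rw [he]; omega

end Pool.Agent.Y970.KC
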